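import Pool.Agent.N352.PJ.Idx

/-!
# Project PJ, part GL (helper655): coordinates, valuations
-/

set_option autoImplicit false
set_option linter.all false

open Polynomial IsDedekindDomain Matrix WithZero
open scoped Classical

namespace Pool.Agent.N655.PJ

open Pool.Agent.N352.PJ
open Pool.Agent.N874.PP (Ov Ev Sq1 U0)

section co

variable {k K L : Type} [Field k] [Field K] [Algebra k[X] K] [IsFractionRing k[X] K]
  [Field L] [Algebra K L] [Algebra k[X] L] [IsScalarTower k[X] K L] {g : ℕ} {f : k[X][X]} {θ : L}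

theorem inj : Function.Injective (algebraMap k[X] K) := IsFractionRing.injective k[X] K

theorem algL (p : k[X]) : algebraMap k[X] L p = algebraMap K L (algebraMap k[X] K p) :=
  IsScalarTower.algebraMap_apply k[X] K L p

theorem smul_alg (p : k[X]) (x : L) : algebraMap k[X] L p * x = algebraMap k[X] K p • x := by
  rw [Algebra.smul_def, ← IsScalarTower.algebraMap_apply]

theorem top_sum (h : IsGen g K f θ) (c : Fin (2 * g + 1) → K) :
    h.top (∑ i, algebraMap K L (c i) * θ ^ (i : ℕ)) = c (Fin.last (2 * g)) := by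
  have e : ∑ i, algebraMap K L (c i) * θ ^ (i : ℕ) = ∑ i, c i • h.basis i := by
    refine Finset.sum_congr rfl fun i _ => ?_
    rw [h.basis_apply, Algebra.smul_def]
  rw [e, IsGen.top, map_sum]
  simp only [map_smul, smul_eq_mul, Module.Basis.coord_apply, Module.Basis.repr_self,
    Finsupp.single_apply]
  rw [Finset.sum_eq_single (Fin.last (2 * g))]
  · simp
  · intro b _ hb
    rw [if_neg hb, mul_zero]
  · intro hn
    exact absurd (Finset.mem_univ _) hn

theorem top_crd (h : IsGen g K f θ) {v : Fin (2 * g + 1) → k[X]} {x : L} (hv : Crd g θ v x) :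
    h.top x = algebraMap k[X] K (v (Fin.last (2 * g))) := by
  rw [Crd] at hv
  rw [hv]
  have e : ∑ i, algebraMap k[X] L (v i) * θ ^ (i : ℕ) =
      ∑ i, algebraMap K L (algebraMap k[X] K (v i)) * θ ^ (i : ℕ) :=
    Finset.sum_congr rfl fun i _ => by rw [algL (K := K)]
  rw [e, top_sum]

theorem top_mul (h : IsGen g K f θ) (p : k[X]) (x : L) :
    h.top (algebraMap k[X] L p * x) = algebraMap k[X] K p * h.top x := by
  rw [smul_alg (K := K), map_smul, smul_eq_mul]

/-- denominators -/
theorem exists_den (h : IsGen g K f θ) {ι : Type} [Finite ι] (x : ι → L) :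
    ∃ c : k[X], c ≠ 0 ∧ ∀ i, ∃ v : Fin (2 * g + 1) → k[X], Crd g θ v (algebraMap k[X] L c * x i) := by
  choose c hc using fun i => h.gen (x i)
  obtain ⟨b, hb⟩ := IsLocalization.exist_integer_multiples_of_finite (nonZeroDivisors k[X])
    (fun p : ι × Fin (2 * g + 1) => c p.1 p.2)
  refine ⟨b, nonZeroDivisors.ne_zero b.2, fun i => ?_⟩
  choose v hv using fun j => hb (i, j)
  refine ⟨v, ?_⟩
  rw [Crd, hc i, Finset.mul_sum]
  refine Finset.sum_congr rfl fun j _ => ?_
  rw [algL (K := K) (v j), hv j, Algebra.smul_def, map_mul, ← algL (K := K)]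
  ring

theorem crd_mul {v : Fin (2 * g + 1) → k[X]} {x : L} (c : k[X]) (hv : Crd g θ v x) :
    Crd g θ (fun i => c * v i) (algebraMap k[X] L c * x) := by
  rw [Crd] at hv ⊢
  rw [hv, Finset.mul_sum]
  refine Finset.sum_congr rfl fun i _ => ?_
  rw [map_mul]
  ring

theorem crd_sum {ι : Type} (s : Finset ι) {v : ι → Fin (2 * g + 1) → k[X]} {x : ι → L}
    (hv : ∀ i, Crd g θ (v i) (x i)) :
    Crd g θ (fun j => ∑ i ∈ s, v i j) (∑ i ∈ s, x i) := by
  simp only [Crd] at hv ⊢
  simp only [map_sum, Finset.sum_mul]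
  rw [Finset.sum_comm]
  exact Finset.sum_congr rfl fun i _ => hv i

/-- the coordinates of a constant -/
theorem crd_const (p : k[X]) :
    Crd g θ (fun i => if i = 0 then p else 0) (algebraMap k[X] L p) := by
  rw [Crd, Finset.sum_eq_single 0]
  · simp
  · intro b _ hb
    rw [if_neg hb, map_zero, zero_mul]
  · intro hn
    exact absurd (Finset.mem_univ _) hn

theorem wtn_const (N : ℕ) (p : k[X]) (hp : p ≠ 0) :
    wtn (fun i : Fin (2 * g + 1) => 2 * N * (i : ℕ)) (fun i => if i = 0 then p else 0) =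
      p.natDegree := by
  unfold wtn
  apply le_antisymm
  · refine Finset.sup_le fun j _ => ?_
    by_cases hj : j = 0
    · subst hj
      simp [hp]
    · simp [hj]
  · have := Finset.le_sup (f := fun j : Fin (2 * g + 1) =>
      if (if j = 0 then p else 0) = 0 then 0 else
        (if j = 0 then p else 0).natDegree + 2 * N * (j : ℕ)) (Finset.mem_univ 0)
    simpa [hp] using this

theorem le_wtn {n : ℕ} (d : Fin n → ℕ) (v : Fin n → k[X]) (j : Fin n) (hj : v j ≠ 0) :
    (v j).natDegree + d j ≤ wtn d v := by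
  unfold wtn
  have h1 := Finset.le_sup (f := fun j => if v j = 0 then 0 else (v j).natDegree + d j)
    (Finset.mem_univ j)
  simp only [if_neg hj] at h1
  exact h1

theorem norm_mul_inv' {α : L} (hα : α ≠ 0) :
    Algebra.norm K α * Algebra.norm K α⁻¹ = 1 := by
  rw [← map_mul, mul_inv_cancel₀ hα, map_one]

theorem norm_ne' {α : L} (hα : α ≠ 0) : Algebra.norm K α ≠ 0 :=
  left_ne_zero_of_mul_eq_one (norm_mul_inv' hα)

theorem sum_d (g N : ℕ) : ∑ j : Fin (2 * g + 1), 2 * N * (j : ℕ) = 2 * N * (g * (2 * g + 1)) := by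
  rw [Fin.sum_univ_eq_sum_range (fun j => 2 * N * j), ← Finset.mul_sum]
  congr 1
  have h1 := Finset.sum_range_id_mul_two (2 * g + 1)
  have h2 : (2 * g + 1) * (2 * g + 1 - 1) = (g * (2 * g + 1)) * 2 := by
    rw [Nat.add_sub_cancel]
    ring
  rw [h2] at h1
  exact Nat.eq_of_mul_eq_mul_right (by norm_num) h1

end co

section vals

variable {k K L O : Type} [Field k] [Field K] [Algebra k[X] K]
  [IsFractionRing k[X] K]
  [Field L] [Algebra K L] [Algebra k[X] L] [IsScalarTower k[X] K L] [CommRing O]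
  [IsDedekindDomain O] [Algebra O L] [IsFractionRing O L] [Algebra k[X] O]
  [IsScalarTower k[X] O L]

theorem val_le_one (𝔓 : HeightOneSpectrum O) (p : k[X]) :
    𝔓.valuation L (algebraMap k[X] L p) ≤ 1 := by
  rw [IsScalarTower.algebraMap_apply k[X] O L]
  exact 𝔓.valuation_le_one _

theorem val_ov {Q : k[X]} {𝔓 : HeightOneSpectrum O} (h : Ov Q 𝔓) :
    𝔓.valuation L (algebraMap k[X] L Q) ≤ exp (-1 : ℤ) := by
  have h1 : 𝔓.valuation L (algebraMap k[X] L Q) < 1 := by
    rw [IsScalarTower.algebraMap_apply k[X] O L]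
    exact (𝔓.valuation_lt_one_iff_mem _).2 h
  by_cases h0 : 𝔓.valuation L (algebraMap k[X] L Q) = 0
  · rw [h0]
    exact zero_le
  · rw [← log_le_iff_le_exp h0]
    rw [← exp_log h0, ← exp_zero, exp_lt_exp] at h1
    omega

theorem isInt_of_val [IsIntegralClosure O k[X] L] {x : L}
    (h : ∀ 𝔓 : HeightOneSpectrum O, 𝔓.valuation L x ≤ 1) : IsIntegral k[X] x := by
  have h1 := HeightOneSpectrum.mem_integers_of_valuation_le_one L x h
  obtain ⟨y, hy⟩ := h1
  exact (IsIntegralClosure.isIntegral_iff (A := O)).2 ⟨y, hy⟩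

end vals

end Pool.Agent.N655.PJ
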